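import Mathlib
import Pool.Agent.R975.MM.Main

/-!
# The noisy min-max game on the `d`-ary tree at the critical point, for all large `d`

The definitions are in `Pool.Agent.R975.MM.Law` and `Pool.Agent.R975.MM.Main`.

* The vertices of the rooted `d`-ary tree are the lists of elements of `Fin d`; the root is `[]`,
  the children of `v` are the lists `c :: v`, and the height of `v` is its length.
* `gm d p` is the product measure on the families `x : List (Fin d) ⊕ List (Fin d) → ℤ`: the
  coordinate `x (inl v)`, the cookie on the edge above `v`, is uniform on `{-1, 1}`, the coordinate
  `x (inr v)`, the boundary value of `v`, is `0` with probability `p` and `2` with probability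
  `1 - p`, and all the coordinates are independent.
* `val x m v` is the value of the vertex `v` when `m` levels remain below it: the boundary value of
  `v` if `m = 0`, otherwise the maximum (if the height of `v` is even) or the minimum (if it is odd)
  over the children `u` of `v` of the cookie on the edge above `u` plus the value of `u`.
* `law d p n` is the law of `V_n^{(p)} = val x (2 n) []` under `gm d p`, as a probability measure
  on `ℤ`; convergence in distribution is the weak convergence of these laws.
* `shift L` is the law of `V + 2` when `V` has law `L`, and `cdfZ L` is the distribution function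
  of `L` on `ℤ`.
* `IsCritical d L0 pc`: `pc ∈ (0, 1)`, and `V_n^{(p)}` converges in distribution to `L0` for all
  `p` on one side of `pc` and to `L0 + 2` for all `p` on the other side.
* `PsiZ d` is the map `Ψ` of the problem, and `Stable d F` says that for some `δ > 0` all
  distribution functions `G` on `ℤ` with `|G - F| ≤ δ` have `Ψ`-iterates converging to `F`.
-/

set_option autoImplicit false

namespace Pool.Agent.Results.MP_398e29_pr.CriticalLaw

open Filter Topology MeasureTheory Pool.Agent.R975.MM

/-- **Theorem.** There is `d₀` such that for every `d ≥ d₀`, if `L0` is the limit law of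
`V_n^{(1)}` and `pc` is a critical point, then `V_n^{(pc)}` converges in distribution to a law
`μ`, different from `L0` and from `L0 + 2`, whose distribution function is an unstable fixed point
of `Ψ`. -/
theorem result : ∃ d0 : ℕ, ∀ d, d0 ≤ d → ∀ L0 : ProbabilityMeasure ℤ,
    Tendsto (law d 1) atTop (𝓝 L0) → ∀ pc : unitInterval, IsCritical d L0 pc →
      ∃ μ : ProbabilityMeasure ℤ, Tendsto (law d pc) atTop (𝓝 μ) ∧ μ ≠ L0 ∧ μ ≠ shift L0 ∧
        PsiZ d (cdfZ μ) = cdfZ μ ∧ ¬ Stable d (cdfZ μ) := main2

end Pool.Agent.Results.MP_398e29_pr.CriticalLaw
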